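import Pool.Agent.Helper57.PW.Defs

open MvPolynomial

namespace PoolPW

namespace ModB

section fischer

variable {V ι : Type*} [Fintype V]

/-- product of factorials -/
noncomputable def fac (α : V →₀ ℕ) : ℝ := ∏ v, ((α v).factorial : ℝ)

lemma fac_pos (α : V →₀ ℕ) : 0 < fac α :=
  Finset.prod_pos fun v _ => by exact_mod_cast (α v).factorial_pos

lemma fac_add (α : V →₀ ℕ) (v : V) :
    fac (α + Finsupp.single v 1) = fac α * (α v + 1) := by
  classical
  unfold fac
  rw [← Finset.mul_prod_erase Finset.univ _ (Finset.mem_univ v),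
    ← Finset.mul_prod_erase Finset.univ (fun v => ((α v).factorial : ℝ)) (Finset.mem_univ v)]
  have h : ∀ x ∈ Finset.univ.erase v, (((α + Finsupp.single v 1 : V →₀ ℕ) x).factorial : ℝ) =
      ((α x).factorial : ℝ) := by
    intro x hx
    rw [Finsupp.add_apply, Finsupp.single_eq_of_ne (Finset.ne_of_mem_erase hx), add_zero]
  rw [Finset.prod_congr rfl h, Finsupp.add_apply, Finsupp.single_eq_same, Nat.factorial_succ]
  push_cast
  ring

/-- the Fischer pairing -/
noncomputable def prL : MvPolynomial V ℝ →ₗ[ℝ] MvPolynomial V ℝ →ₗ[ℝ] ℝ :=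
  ((basisMonomials V ℝ).constr ℝ).toLinearMap ∘ₗ
    LinearMap.pi (fun α => fac α • (lcoeff ℝ α : MvPolynomial V ℝ →ₗ[ℝ] ℝ))

lemma prL_monomial (r : MvPolynomial V ℝ) (α : V →₀ ℕ) (a : ℝ) :
    prL r (monomial α a) = a * (fac α * coeff α r) := by
  have h1 : (monomial α a : MvPolynomial V ℝ) = a • (basisMonomials V ℝ) α := by
    rw [coe_basisMonomials, smul_monomial, smul_eq_mul, mul_one]
  rw [h1, map_smul, prL, LinearMap.comp_apply, LinearEquiv.coe_coe, Module.Basis.constr_basis]
  simp [lcoeff]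

lemma prL_self_pos (p : MvPolynomial V ℝ) (hp : p ≠ 0) : 0 < prL p p := by
  have h1 : prL p p = ∑ α ∈ p.support, coeff α p * (fac α * coeff α p) := by
    conv_lhs => rw [p.as_sum, map_sum]
    apply Finset.sum_congr rfl
    intro α _
    rw [← p.as_sum, prL_monomial]
  rw [h1]
  apply Finset.sum_pos
  · intro α hα
    have h2 : coeff α p ≠ 0 := mem_support_iff.mp hα
    have h3 := fac_pos α
    have : 0 < coeff α p ^ 2 := by positivity
    nlinarith [mul_pos h3 this]
  · exact Finset.nonempty_iff_ne_empty.mpr (mt support_eq_empty.mp hp)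

lemma prL_mul_X (r q : MvPolynomial V ℝ) (v : V) :
    prL r (q * X v) = prL (pderiv v r) q := by
  have h : (prL r) ∘ₗ (LinearMap.mulRight ℝ (X v)) = prL (pderiv v r) := by
    apply (basisMonomials V ℝ).ext
    intro α
    rw [coe_basisMonomials, LinearMap.comp_apply, LinearMap.mulRight_apply, X, monomial_mul,
      prL_monomial, prL_monomial, coeff_pderiv, fac_add]
    ring
  exact congrArg (fun f => f q) h

/-- the linear form -/
noncomputable def lin (b : ι → V → ℝ) (i : ι) : MvPolynomial V ℝ := ∑ v, C (b i v) * X v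

lemma pderiv_lin (b : ι → V → ℝ) (i : ι) (v : V) : pderiv v (lin b i) = C (b i v) := by
  classical
  simp only [lin, map_sum, pderiv_C_mul, pderiv_X, Pi.single_apply]
  simp

lemma pderiv_prod_lin [DecidableEq ι] (b : ι → V → ℝ) (Y : Finset ι) (v : V) :
    pderiv v (∏ i ∈ Y, lin b i) = ∑ i ∈ Y, b i v • ∏ j ∈ Y.erase i, lin b j := by
  induction Y using Finset.induction_on with
  | empty => simp
  | insert a s ha ih =>
    rw [Finset.prod_insert ha, Derivation.leibniz, ih, pderiv_lin, Finset.sum_insert ha,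
      Finset.erase_insert ha, smul_eq_mul, smul_eq_mul, Finset.mul_sum]
    rw [add_comm, smul_eq_C_mul, mul_comm (∏ i ∈ s, lin b i)]
    congr 1
    apply Finset.sum_congr rfl
    intro i hi
    have hai : a ≠ i := fun h => ha (h ▸ hi)
    rw [Finset.erase_insert_of_ne hai, Finset.prod_insert (by
      intro h; exact ha (Finset.mem_of_mem_erase h))]
    rw [smul_eq_C_mul, smul_eq_C_mul]
    ring

variable [Fintype ι]

/-- substitution -/
noncomputable def subst (b : ι → V → ℝ) : MvPolynomial V ℝ →ₐ[ℝ] MvPolynomial ι ℝ :=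
  aeval (fun v => ∑ i, C (b i v) * X i)

omit [Fintype ι] in
lemma support_ind [DecidableEq ι] (Y : Finset ι) :
    (∑ i ∈ Y, Finsupp.single i 1 : ι →₀ ℕ).support = Y := by
  ext j
  simp [Finsupp.finsetSum_apply, Finsupp.single_apply]

omit [Fintype ι] in
lemma ind_sub [DecidableEq ι] (Y : Finset ι) (i : ι) (hi : i ∈ Y) :
    (∑ i ∈ Y, Finsupp.single i 1 : ι →₀ ℕ) - Finsupp.single i 1 =
      ∑ j ∈ Y.erase i, Finsupp.single j 1 := by
  rw [← Finset.add_sum_erase Y _ hi, add_tsub_cancel_left]

lemma prL_eq [DecidableEq ι] (b : ι → V → ℝ) (q : MvPolynomial V ℝ) : ∀ (Y : Finset ι),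
    prL (∏ i ∈ Y, lin b i) q = coeff (∑ i ∈ Y, Finsupp.single i 1) (subst b q) := by
  induction q using MvPolynomial.induction_on with
  | C a =>
    intro Y
    have h1 : (C a : MvPolynomial V ℝ) = monomial 0 a := rfl
    have h2 : fac (0 : V →₀ ℕ) = 1 := by simp [fac]
    rw [h1, prL_monomial, h2, one_mul, ← h1, subst, aeval_C, algebraMap_eq, coeff_C,
      ← constantCoeff_eq, map_prod]
    have h3 : ∀ i, constantCoeff (lin b i) = 0 := by
      intro i; simp [lin]
    simp only [h3]
    rcases Y.eq_empty_or_nonempty with rfl | ⟨i, hi⟩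
    · simp
    · rw [Finset.prod_eq_zero hi rfl, mul_zero, if_neg]
      intro h
      have := support_ind Y
      rw [← h, Finsupp.support_zero] at this
      rw [← this] at hi
      simp at hi
  | add p q hp hq =>
    intro Y
    rw [map_add, map_add, coeff_add, hp, hq]
  | mul_X q v ih =>
    intro Y
    rw [prL_mul_X, pderiv_prod_lin, map_sum, LinearMap.sum_apply]
    simp only [map_smul, LinearMap.smul_apply, ih, smul_eq_mul]
    rw [map_mul]
    have h1 : subst b (X v) = ∑ i, C (b i v) * X i := by simp [subst]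
    rw [h1, Finset.mul_sum, coeff_sum]
    have h2 : ∀ i, coeff (∑ i ∈ Y, Finsupp.single i 1) (subst b q * (C (b i v) * X i)) =
        if i ∈ Y then b i v * coeff (∑ j ∈ Y.erase i, Finsupp.single j 1) (subst b q) else 0 := by
      intro i
      rw [show subst b q * (C (b i v) * X i) = C (b i v) * (subst b q * X i) by ring,
        coeff_C_mul, coeff_mul_X', support_ind]
      split_ifs with h
      · rw [ind_sub Y i h]
      · rw [mul_zero]
    simp only [h2]
    rw [Finset.sum_ite_mem, Finset.univ_inter]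

end fischer

end ModB

open ModB in
open Classical in
/-- Module B1 (Fischer form). -/
theorem fischer {V ι : Type*} [Fintype V] [Fintype ι] (b : ι → V → ℝ)
    (p : MvPolynomial V ℝ) (hp : p ≠ 0) (𝒴 : Finset (Finset ι)) (c : Finset ι → ℝ)
    (h : ∀ y : V → ℝ, eval y p = ∑ Y ∈ 𝒴, c Y * ∏ i ∈ Y, (∑ v, b i v * y v)) :
    ∃ Y ∈ 𝒴, coeff (∑ i ∈ Y, Finsupp.single i 1)
      (aeval (fun v => ∑ i, C (b i v) * X i) p : MvPolynomial ι ℝ) ≠ 0 := by
  by_contra hcon
  push Not at hcon
  have h1 : p = ∑ Y ∈ 𝒴, c Y • ∏ i ∈ Y, lin b i := by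
    apply MvPolynomial.funext
    intro y
    rw [h y, map_sum]
    apply Finset.sum_congr rfl
    intro Y _
    rw [smul_eval, map_prod]
    congr 1
    apply Finset.prod_congr rfl
    intro i _
    simp [lin]
  have h2 := prL_self_pos p hp
  have h3 : prL p p = 0 := by
    conv_lhs => rw [show prL p = prL (∑ Y ∈ 𝒴, c Y • ∏ i ∈ Y, lin b i) by rw [← h1]]
    rw [map_sum, LinearMap.sum_apply]
    apply Finset.sum_eq_zero
    intro Y hY
    rw [map_smul, LinearMap.smul_apply, prL_eq]
    have := hcon Y hY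
    rw [subst, this, smul_zero]
  exact absurd h3 h2.ne'

open Classical in
/-- Module B2 (Combinatorial Nullstellensatz with toggles). -/
theorem toggles {V ι κ : Type*} [Fintype V] [Fintype ι] (H : Finset κ)
    (s t : κ → V) (b : ι → V → ℝ) (Y : Finset ι)
    (h : coeff (∑ i ∈ Y, Finsupp.single i 1)
      (aeval (fun v => ∑ i, C (b i v) * X i)
        (∏ h ∈ H, (X (s h) - X (t h)) : MvPolynomial V ℝ) : MvPolynomial ι ℝ) ≠ 0)
    (k : V → ℝ) (γ : ℝ) (hγ : γ ≠ 0) :
    ∃ z : ι → ℝ, (∀ i, z i = 0 ∨ z i = γ) ∧ (∀ i ∉ Y, z i = 0) ∧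
      ∀ h ∈ H, k (s h) + ∑ i, b i (s h) * z i ≠ k (t h) + ∑ i, b i (t h) * z i := by
  -- the linear forms
  let l : κ → MvPolynomial ι ℝ := fun h => ∑ i, C (b i (s h) - b i (t h)) * X i
  have hl : ∀ h, (l h).IsHomogeneous 1 := by
    intro h
    apply IsHomogeneous.sum
    intro i _
    have := (isHomogeneous_C ι (b i (s h) - b i (t h))).mul (isHomogeneous_X ℝ i)
    simpa using this
  have h1 : (aeval (fun v => ∑ i, C (b i v) * X i)
        (∏ h ∈ H, (X (s h) - X (t h)) : MvPolynomial V ℝ) : MvPolynomial ι ℝ) =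
      ∏ h ∈ H, l h := by
    rw [map_prod]
    apply Finset.prod_congr rfl
    intro h _
    simp only [l, map_sub, aeval_X, ← Finset.sum_sub_distrib, sub_mul]
  rw [h1] at h
  have hhom : (∏ h ∈ H, l h).IsHomogeneous H.card := by
    have := IsHomogeneous.prod H l (fun _ => 1) (fun h _ => hl h)
    simpa using this
  have hdeg : (∑ i ∈ Y, Finsupp.single i 1 : ι →₀ ℕ).degree = H.card := by
    rw [Finsupp.degree_eq_weight_one]; exact hhom h
  let f : MvPolynomial ι ℝ := ∏ h ∈ H, (l h + C (k (s h) - k (t h)))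
  have hcoeff : coeff (∑ i ∈ Y, Finsupp.single i 1) f =
      coeff (∑ i ∈ Y, Finsupp.single i 1) (∏ h ∈ H, l h) := by
    simp only [f]
    rw [Finset.prod_add, coeff_sum, Finset.sum_eq_single H]
    · simp
    · intro T hT hne
      rw [Finset.mem_powerset] at hT
      by_contra h2
      have h3 : ((∏ h ∈ T, l h) * ∏ h ∈ H \ T, (C (k (s h) - k (t h)) : MvPolynomial ι ℝ)).IsHomogeneous
          T.card := by
        have e1 := IsHomogeneous.prod T l (fun _ => 1) (fun h _ => hl h)
        have e2 := IsHomogeneous.prod (H \ T) (fun h => (C (k (s h) - k (t h)) : MvPolynomial ι ℝ))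
          (fun _ => 0) (fun h _ => isHomogeneous_C _ _)
        have := e1.mul e2
        simpa using this
      have h4 : (∑ i ∈ Y, Finsupp.single i 1 : ι →₀ ℕ).degree = T.card := by
        rw [Finsupp.degree_eq_weight_one]; exact h3 h2
      rw [hdeg] at h4
      exact hne (Finset.eq_of_subset_of_card_le hT h4.le)
    · intro hH
      exact absurd (Finset.mem_powerset_self H) hH
  have hf0 : coeff (∑ i ∈ Y, Finsupp.single i 1) f ≠ 0 := by rw [hcoeff]; exact h
  have htot : f.totalDegree = (∑ i ∈ Y, Finsupp.single i 1 : ι →₀ ℕ).degree := by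
    apply le_antisymm
    · rw [hdeg]
      refine (totalDegree_finsetProd _ _).trans ?_
      rw [← smul_eq_mul H.card 1 |>.trans (mul_one _), ← Finset.sum_const]
      apply Finset.sum_le_sum
      intro h _
      refine (totalDegree_add _ _).trans ?_
      rw [totalDegree_C]
      exact max_le (hl h).totalDegree_le (Nat.zero_le _)
    · have := le_totalDegree (mem_support_iff.mpr hf0)
      exact this
  obtain ⟨z, hz1, hz2⟩ := combinatorial_nullstellensatz_exists_eval_nonzero f _ hf0 htot
    (fun i => if i ∈ Y then {0, γ} else {0}) (by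
      intro i
      rw [Finsupp.finsetSum_apply]
      simp only [Finsupp.single_apply, Finset.sum_ite_eq']
      split_ifs with hi
      · rw [Finset.card_pair hγ.symm]; norm_num
      · simp)
  refine ⟨z, ?_, ?_, ?_⟩
  · intro i
    have := hz1 i
    split_ifs at this <;> simp at this <;> tauto
  · intro i hi
    have := hz1 i
    rw [if_neg hi] at this
    simpa using this
  · intro h hh heq
    apply hz2
    simp only [f]
    rw [map_prod]
    apply Finset.prod_eq_zero hh
    simp only [l, map_add, map_sum, map_mul, eval_C, eval_X, sub_mul, Finset.sum_sub_distrib]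
    linarith

end PoolPW
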